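import Mathlib

/-!
Chapter S12 of project MT: the sum of `1/d` over squarefree `d ≤ z` coprime to `W` is
`c log z + O_W(1)`.
-/

set_option autoImplicit false

namespace Pool.Agent.Helper68.MT

open Finset

/-- density of the coprimality condition minus its mean -/
noncomputable def dev (W m : ℕ) : ℝ := (if m.Coprime W then (1 : ℝ) else 0) - W.totient / W

theorem dev_period (W m : ℕ) : dev W (m + W) = dev W m := by
  unfold dev
  have : (m + W).Coprime W ↔ m.Coprime W := by
    rw [Nat.coprime_add_self_left]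
  simp only [this]

theorem abs_dev_le (W m : ℕ) (hW : 0 < W) : |dev W m| ≤ 1 := by
  unfold dev
  have h0 : (0 : ℝ) ≤ (W.totient : ℝ) / W := by positivity
  have h1 : (W.totient : ℝ) / W ≤ 1 := by
    rw [div_le_one (by exact_mod_cast hW)]
    exact_mod_cast Nat.totient_le W
  rw [abs_le]
  split_ifs <;> constructor <;> linarith

theorem sum_dev_block (W n : ℕ) (hW : 0 < W) : ∑ m ∈ Ico n (n + W), dev W m = 0 := by
  unfold dev
  rw [Finset.sum_sub_distrib, Finset.sum_ite, Finset.sum_const_zero, add_zero]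
  simp only [Finset.sum_const, Nat.card_Ico, nsmul_eq_mul, mul_one]
  have h := Nat.filter_coprime_Ico_eq_totient W n
  have h' : (Ico n (n + W)).filter (fun x => x.Coprime W) =
      (Ico n (n + W)).filter (fun x => W.Coprime x) := by
    apply Finset.filter_congr
    intro x _
    exact Nat.coprime_comm
  rw [h', h]
  have hW' : (W : ℝ) ≠ 0 := by positivity
  have : ((n + W - n : ℕ) : ℝ) = W := by congr 1; omega
  rw [this]
  field_simp
  ring

theorem sum_dev_bound (W : ℕ) (hW : 0 < W) : ∀ n : ℕ, |∑ m ∈ range n, dev W m| ≤ W := by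
  intro n
  induction n using Nat.strong_induction_on with
  | _ n ih =>
    by_cases h : n ≤ W
    · calc |∑ m ∈ range n, dev W m| ≤ ∑ m ∈ range n, |dev W m| := Finset.abs_sum_le_sum_abs _ _
        _ ≤ ∑ m ∈ range n, (1 : ℝ) := Finset.sum_le_sum fun m _ => abs_dev_le W m hW
        _ = n := by simp
        _ ≤ W := by exact_mod_cast h
    · push Not at h
      have e : ∑ m ∈ range n, dev W m = ∑ m ∈ range (n - W), dev W m := by
        rw [Finset.range_eq_Ico, ← Finset.sum_Ico_consecutive _ (Nat.zero_le (n - W))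
          (Nat.sub_le n W)]
        have := sum_dev_block W (n - W) hW
        rw [Nat.sub_add_cancel h.le] at this
        rw [this, add_zero, ← Finset.range_eq_Ico]
      rw [e]
      exact ih (n - W) (by omega)

/-- Abel summation: bounded partial sums of `a` give bounded sums of `a m / m` -/
theorem abel (a : ℕ → ℝ) (B : ℝ) (h : ∀ n, |∑ m ∈ range n, a m| ≤ B) (n : ℕ) :
    |∑ m ∈ Icc 1 n, a m / m| ≤ 4 * B := by
  have hB : 0 ≤ B := (abs_nonneg _).trans (h 0)
  have key : ∀ n : ℕ, ∑ m ∈ Icc 1 n, a m / m =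
      (∑ m ∈ range (n + 1), a m) / (n + 1) - a 0 +
        ∑ m ∈ Icc 1 n, (∑ i ∈ range (m + 1), a i) * (1 / m - 1 / (m + 1)) := by
    intro n
    induction n with
    | zero => simp
    | succ n ih =>
      rw [Finset.sum_Icc_succ_top (by omega), ih, Finset.sum_Icc_succ_top (by omega)]
      rw [Finset.sum_range_succ _ (n + 1)]
      push_cast
      field_simp
      ring
  rw [key n]
  have h1 : |(∑ m ∈ range (n + 1), a m) / ((n : ℝ) + 1)| ≤ B := by
    rw [abs_div, abs_of_pos (by positivity : (0 : ℝ) < (n : ℝ) + 1), div_le_iff₀ (by positivity)]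
    have := h (n + 1)
    nlinarith [abs_nonneg (∑ m ∈ range (n + 1), a m), (Nat.cast_nonneg n : (0 : ℝ) ≤ n)]
  have h2 : |a 0| ≤ B := by
    have := h 1
    simpa using this
  have h3 : |∑ m ∈ Icc 1 n, (∑ i ∈ range (m + 1), a i) * (1 / (m : ℝ) - 1 / (m + 1))| ≤ B := by
    calc _ ≤ ∑ m ∈ Icc 1 n, |(∑ i ∈ range (m + 1), a i) * (1 / (m : ℝ) - 1 / (m + 1))| :=
          Finset.abs_sum_le_sum_abs _ _
      _ ≤ ∑ m ∈ Icc 1 n, B * (1 / (m : ℝ) - 1 / (m + 1)) := by
          apply Finset.sum_le_sum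
          intro m hm
          rw [mem_Icc] at hm
          have hm0 : (0 : ℝ) < m := by exact_mod_cast (by omega : 0 < m)
          have h0 : (0 : ℝ) ≤ 1 / (m : ℝ) - 1 / (m + 1) := by
            rw [sub_nonneg]
            apply one_div_le_one_div_of_le hm0
            linarith
          rw [abs_mul, abs_of_nonneg h0]
          exact mul_le_mul_of_nonneg_right (h (m + 1)) h0
      _ = B * (1 - 1 / (n + 1)) := by
          rw [← Finset.mul_sum]
          congr 1
          clear h1 key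
          induction n with
          | zero => simp
          | succ n ih =>
            rw [Finset.sum_Icc_succ_top (by omega), ih]
            push_cast
            ring
      _ ≤ B := by
          have : (0 : ℝ) ≤ 1 / ((n : ℝ) + 1) := by positivity
          nlinarith
  calc _ ≤ |(∑ m ∈ range (n + 1), a m) / ((n : ℝ) + 1) - a 0| + _ := abs_add_le _ _
    _ ≤ (|(∑ m ∈ range (n + 1), a m) / ((n : ℝ) + 1)| + |a 0|) + B := by
        gcongr
        exact abs_sub _ _
    _ ≤ (B + B) + B := by gcongr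
    _ ≤ 4 * B := by linarith

/-- the sum over numbers coprime to `W` -/
noncomputable def AA (W n : ℕ) : ℝ := ∑ m ∈ (Icc 1 n).filter (fun m => m.Coprime W), (1 : ℝ) / m

theorem AA_asymp (W : ℕ) (hW : 0 < W) (n : ℕ) (hn : 1 ≤ n) :
    |AA W n - W.totient / W * Real.log n| ≤ 4 * W + 1 := by
  have h := abel (dev W) W (sum_dev_bound W hW) n
  have e : ∑ m ∈ Icc 1 n, dev W m / m = AA W n - (W.totient : ℝ) / W * (harmonic n : ℝ) := by
    unfold AA dev
    rw [Finset.sum_filter, harmonic_eq_sum_Icc]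
    push_cast
    rw [Finset.mul_sum, ← Finset.sum_sub_distrib]
    apply Finset.sum_congr rfl
    intro m hm
    split_ifs
    · simp only [div_eq_mul_inv]; ring
    · simp only [div_eq_mul_inv]; ring
  rw [e] at h
  have h1 : (W.totient : ℝ) / W ≤ 1 := by
    rw [div_le_one (by exact_mod_cast hW)]
    exact_mod_cast Nat.totient_le W
  have h0 : (0 : ℝ) ≤ (W.totient : ℝ) / W := by positivity
  have h2 : |(harmonic n : ℝ) - Real.log n| ≤ 1 := by
    have a1 := log_add_one_le_harmonic n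
    have a2 := harmonic_le_one_add_log n
    have a3 : Real.log n ≤ Real.log (n + 1 : ℕ) := by
      apply Real.log_le_log (by exact_mod_cast hn)
      push_cast; linarith
    rw [abs_le]
    constructor <;> linarith
  have e2 : AA W n - W.totient / W * Real.log n =
      (AA W n - (W.totient : ℝ) / W * (harmonic n : ℝ)) +
        (W.totient : ℝ) / W * ((harmonic n : ℝ) - Real.log n) := by ring
  rw [e2]
  refine (abs_add_le _ _).trans ?_
  have : |(W.totient : ℝ) / W * ((harmonic n : ℝ) - Real.log n)| ≤ 1 := by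
    rw [abs_mul, abs_of_nonneg h0]
    calc (W.totient : ℝ) / W * |(harmonic n : ℝ) - Real.log n| ≤ 1 * 1 := by
          apply mul_le_mul h1 h2 (abs_nonneg _) zero_le_one
      _ = 1 := by ring
  linarith

/-! ### squarefree numbers -/

/-- squarefree numbers up to `n` coprime to `W` -/
noncomputable def SS (W n : ℕ) : ℝ :=
  ∑ d ∈ (Icc 1 n).filter (fun d => Squarefree d ∧ d.Coprime W), (1 : ℝ) / d

theorem sq_dvd_iff (a b e : ℕ) (ha : Squarefree a) (hb : b ≠ 0) : e ^ 2 ∣ b ^ 2 * a ↔ e ∣ b := by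
  constructor
  · intro h
    have ha0 : a ≠ 0 := ha.ne_zero
    by_cases he : e = 0
    · subst he
      exfalso
      have : b ^ 2 * a = 0 := by
        rw [zero_pow two_ne_zero] at h
        exact zero_dvd_iff.mp h
      rcases mul_eq_zero.mp this with h' | h'
      · exact hb (pow_eq_zero_iff two_ne_zero |>.mp h')
      · exact ha0 h'
    rw [← Nat.factorization_le_iff_dvd (pow_ne_zero 2 he) (mul_ne_zero (pow_ne_zero 2 hb) ha0)] at h
    rw [← Nat.factorization_le_iff_dvd he hb]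
    intro p
    have h1 := h p
    rw [Nat.factorization_pow, Nat.factorization_mul (pow_ne_zero 2 hb) ha0,
      Nat.factorization_pow] at h1
    simp only [Finsupp.smul_apply, Finsupp.add_apply, smul_eq_mul] at h1
    have h2 := ha.natFactorization_le_one p
    omega
  · intro h
    exact Dvd.dvd.mul_right (pow_dvd_pow_of_dvd h 2) a

theorem sq_ind (n N : ℕ) (hn : n ≠ 0) (hN : n ≤ N) :
    ∑ e ∈ (Icc 1 N).filter (fun e => e ^ 2 ∣ n), ArithmeticFunction.moebius e =
      if Squarefree n then 1 else 0 := by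
  obtain ⟨a, b, hab, ha⟩ := Nat.sq_mul_squarefree n
  have hb : b ≠ 0 := by
    rintro rfl
    apply hn
    rw [← hab]; simp
  have ha0 : a ≠ 0 := ha.ne_zero
  have hbn : b ≤ N := by
    have : b ≤ n := by
      rw [← hab]
      calc b ≤ b ^ 2 := Nat.le_self_pow two_ne_zero b
        _ ≤ b ^ 2 * a := Nat.le_mul_of_pos_right _ (Nat.pos_of_ne_zero ha0)
    omega
  have e1 : (Icc 1 N).filter (fun e => e ^ 2 ∣ n) = b.divisors := by
    ext e
    rw [mem_filter, Nat.mem_divisors, mem_Icc, ← hab, sq_dvd_iff a b e ha hb]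
    constructor
    · rintro ⟨_, h⟩; exact ⟨h, hb⟩
    · rintro ⟨h, _⟩
      refine ⟨⟨?_, ?_⟩, h⟩
      · exact Nat.pos_of_dvd_of_pos h (Nat.pos_of_ne_zero hb)
      · exact (Nat.le_of_dvd (Nat.pos_of_ne_zero hb) h).trans hbn
  have e2 : ∑ e ∈ b.divisors, ArithmeticFunction.moebius e = if b = 1 then 1 else 0 := by
    rw [← ArithmeticFunction.coe_mul_zeta_apply, ArithmeticFunction.moebius_mul_coe_zeta,
      ArithmeticFunction.one_apply]
  rw [e1, e2]
  have e3 : b = 1 ↔ Squarefree n := by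
    constructor
    · rintro rfl
      rw [← hab, one_pow, one_mul]; exact ha
    · intro h
      have : b * b ∣ n := by rw [← hab, sq]; exact Dvd.intro _ rfl
      have := h b this
      exact Nat.isUnit_iff.mp this
  by_cases hb1 : b = 1
  · rw [if_pos hb1, if_pos (e3.mp hb1)]
  · rw [if_neg hb1, if_neg (fun h => hb1 (e3.mpr h))]

theorem inner_sum (W n e : ℕ) (he : 0 < e) :
    ∑ m ∈ (Icc 1 n).filter (fun m => m.Coprime W ∧ e ^ 2 ∣ m), (1 : ℝ) / m =
      if e.Coprime W then 1 / (e : ℝ) ^ 2 * AA W (n / e ^ 2) else 0 := by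
  have he2 : 0 < e ^ 2 := by positivity
  split_ifs with hc
  · unfold AA
    rw [Finset.mul_sum]
    refine Finset.sum_nbij' (fun m => m / e ^ 2) (fun m => e ^ 2 * m) ?_ ?_ ?_ ?_ ?_
    · intro m hm
      rw [mem_filter, mem_Icc] at hm ⊢
      obtain ⟨⟨h1, h2⟩, h3, h4⟩ := hm
      obtain ⟨k, rfl⟩ := h4
      rw [Nat.mul_div_cancel_left _ he2]
      refine ⟨⟨Nat.pos_of_mul_pos_left h1, ?_⟩, h3.coprime_mul_left⟩
      rw [Nat.le_div_iff_mul_le he2, mul_comm]; exact h2
    · intro m hm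
      rw [mem_filter, mem_Icc] at hm ⊢
      obtain ⟨⟨h1, h2⟩, h3⟩ := hm
      refine ⟨⟨Nat.mul_pos he2 h1, ?_⟩, Nat.Coprime.mul_left (hc.pow_left 2) h3, Dvd.intro _ rfl⟩
      rw [Nat.le_div_iff_mul_le he2] at h2
      rw [mul_comm]; exact h2
    · intro m hm
      rw [mem_filter] at hm
      exact Nat.mul_div_cancel' hm.2.2
    · intro m _
      exact Nat.mul_div_cancel_left _ he2
    · intro m hm
      rw [mem_filter] at hm
      obtain ⟨k, rfl⟩ := hm.2.2
      rw [Nat.mul_div_cancel_left _ he2]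
      push_cast
      rw [one_div_mul_one_div]
  · apply Finset.sum_eq_zero
    intro m hm
    rw [mem_filter] at hm
    exfalso
    apply hc
    have h1 : (e ^ 2).Coprime W := Nat.Coprime.coprime_dvd_left hm.2.2 hm.2.1
    rw [sq] at h1
    exact h1.coprime_mul_left

theorem SS_eq (W n : ℕ) : SS W n = ∑ e ∈ Icc 1 n, (if e.Coprime W then
    (ArithmeticFunction.moebius e : ℝ) * (1 / (e : ℝ) ^ 2 * AA W (n / e ^ 2)) else 0) := by
  have h1 : SS W n = ∑ m ∈ Icc 1 n, ∑ e ∈ Icc 1 n,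
      (if m.Coprime W ∧ e ^ 2 ∣ m then (ArithmeticFunction.moebius e : ℝ) * (1 / m) else 0) := by
    unfold SS
    rw [Finset.sum_filter]
    apply Finset.sum_congr rfl
    intro m hm
    rw [mem_Icc] at hm
    have h2 := sq_ind m n (by omega) hm.2
    by_cases hc : m.Coprime W
    · have e1 : ∀ e ∈ Icc 1 n, (if m.Coprime W ∧ e ^ 2 ∣ m then
          (ArithmeticFunction.moebius e : ℝ) * (1 / m) else 0) =
          if e ^ 2 ∣ m then (ArithmeticFunction.moebius e : ℝ) * (1 / m) else 0 := by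
        intro e _
        by_cases h : e ^ 2 ∣ m
        · rw [if_pos ⟨hc, h⟩, if_pos h]
        · rw [if_neg (fun hh : _ ∧ _ => h hh.2), if_neg h]
      rw [Finset.sum_congr rfl e1, ← Finset.sum_filter, ← Finset.sum_mul]
      have h3 : (∑ e ∈ (Icc 1 n).filter (fun e => e ^ 2 ∣ m), (ArithmeticFunction.moebius e : ℝ)) =
          if Squarefree m then 1 else 0 := by
        have := congrArg (fun z : ℤ => (z : ℝ)) h2
        push_cast at this
        exact this
      rw [h3]
      by_cases hsq : Squarefree m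
      · rw [if_pos ⟨hsq, hc⟩, if_pos hsq, one_mul]
      · rw [if_neg (fun hh : _ ∧ _ => hsq hh.1), if_neg hsq, zero_mul]
    · simp [hc]
  rw [h1, Finset.sum_comm]
  apply Finset.sum_congr rfl
  intro e he
  rw [mem_Icc] at he
  rw [← Finset.sum_filter, ← Finset.mul_sum, inner_sum W n e (by omega)]
  split_ifs <;> simp

/-- the coefficients -/
noncomputable def cf (W e : ℕ) : ℝ :=
  if e.Coprime W then (ArithmeticFunction.moebius e : ℝ) / (e : ℝ) ^ 2 else 0

theorem abs_cf_le (W e : ℕ) : |cf W e| ≤ ((e : ℝ) ^ 2)⁻¹ := by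
  unfold cf
  split_ifs
  · rw [abs_div, abs_of_nonneg (by positivity : (0 : ℝ) ≤ (e : ℝ) ^ 2), div_eq_mul_inv]
    have h : |(ArithmeticFunction.moebius e : ℝ)| ≤ 1 := by
      have := ArithmeticFunction.abs_moebius_le_one (n := e)
      exact_mod_cast this
    calc _ ≤ 1 * ((e : ℝ) ^ 2)⁻¹ := by gcongr
      _ = _ := one_mul _
  · rw [abs_zero]; positivity

theorem summable_cf (W : ℕ) : Summable (cf W) := by
  apply Summable.of_norm_bounded (g := fun e : ℕ => ((e : ℝ) ^ 2)⁻¹)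
    (Real.summable_nat_pow_inv.mpr one_lt_two)
  intro e
  rw [Real.norm_eq_abs]
  exact abs_cf_le W e

theorem tail_cf (W M : ℕ) (hM : 1 ≤ M) :
    |∑' e, cf W e - ∑ e ∈ range (M + 1), cf W e| ≤ 1 / M := by
  have hs := (summable_cf W).hasSum.tendsto_sum_nat
  have hs' : Filter.Tendsto (fun n => |∑ e ∈ range n, cf W e - ∑ e ∈ range (M + 1), cf W e|)
      Filter.atTop (nhds (|∑' e, cf W e - ∑ e ∈ range (M + 1), cf W e|)) :=
    (hs.sub_const _).abs
  apply le_of_tendsto hs'
  filter_upwards [Filter.eventually_ge_atTop (M + 1)] with n hn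
  have e1 : ∑ e ∈ range n, cf W e - ∑ e ∈ range (M + 1), cf W e = ∑ e ∈ Ico (M + 1) n, cf W e := by
    rw [Finset.sum_Ico_eq_sub _ hn]
  rw [e1]
  have e2 : Ico (M + 1) n = Ioc M (n - 1) := by
    ext x; simp only [mem_Ico, mem_Ioc]; omega
  rw [e2]
  calc _ ≤ ∑ e ∈ Ioc M (n - 1), |cf W e| := Finset.abs_sum_le_sum_abs _ _
    _ ≤ ∑ e ∈ Ioc M (n - 1), ((e : ℝ) ^ 2)⁻¹ := Finset.sum_le_sum fun e _ => abs_cf_le W e
    _ ≤ (M : ℝ)⁻¹ - ((n - 1 : ℕ) : ℝ)⁻¹ :=
        sum_Ioc_inv_sq_le_sub (by omega) (by omega)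
    _ ≤ 1 / M := by
        have : (0 : ℝ) ≤ ((n - 1 : ℕ) : ℝ)⁻¹ := by positivity
        rw [one_div]; linarith

/-- constant of the asymptotic formula -/
noncomputable def cS (W : ℕ) : ℝ := W.totient / W * ∑' e, cf W e

theorem cf_one (W : ℕ) : cf W 1 = 1 := by simp [cf]
theorem cf_zero (W : ℕ) : cf W 0 = 0 := by simp [cf]

theorem cf_small (W w e : ℕ) (hw : ∀ p : ℕ, p.Prime → p ≤ w → p ∣ W) (h1 : 1 < e) (h2 : e ≤ w) :
    cf W e = 0 := by
  unfold cf
  rw [if_neg]
  intro hc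
  obtain ⟨p, hp, hpe⟩ := Nat.exists_prime_and_dvd (by omega : e ≠ 1)
  have := hw p hp ((Nat.le_of_dvd (by omega) hpe).trans h2)
  have h3 := Nat.dvd_gcd hpe this
  rw [hc] at h3
  exact hp.one_lt.ne' (Nat.dvd_one.mp h3)

theorem tsum_cf (W w : ℕ) (hw1 : 1 ≤ w) (hw : ∀ p : ℕ, p.Prime → p ≤ w → p ∣ W) :
    |∑' e, cf W e - 1| ≤ 1 / w := by
  have h := tail_cf W w hw1
  have : ∑ e ∈ range (w + 1), cf W e = 1 := by
    rw [Finset.sum_eq_single 1]
    · exact cf_one W
    · intro e he h1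
      rw [mem_range] at he
      rcases Nat.lt_or_gt_of_ne h1 with h | h
      · have : e = 0 := by omega
        rw [this]; exact cf_zero W
      · exact cf_small W w e hw h (by omega)
    · intro h
      exfalso
      apply h
      rw [mem_range]; omega
  rwa [this] at h

theorem cS_bounds (W w : ℕ) (hw1 : 1 ≤ w) (hw : ∀ p : ℕ, p.Prime → p ≤ w → p ∣ W) :
    (1 - 1 / w) * ((W.totient : ℝ) / W) ≤ cS W ∧ cS W ≤ (1 + 1 / w) * ((W.totient : ℝ) / W) := by
  have h := tsum_cf W w hw1 hw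
  rw [abs_le] at h
  have h0 : (0 : ℝ) ≤ (W.totient : ℝ) / W := by positivity
  unfold cS
  constructor
  · rw [mul_comm]
    apply mul_le_mul_of_nonneg_left _ h0
    linarith
  · rw [mul_comm (1 + 1 / (w : ℝ))]
    apply mul_le_mul_of_nonneg_left _ h0
    linarith

theorem log_div_sq (n e : ℕ) (he : 1 ≤ e) (h : e ^ 2 ≤ n) :
    |Real.log ((n / e ^ 2 : ℕ) : ℝ) - (Real.log n - 2 * Real.log e)| ≤ 1 := by
  have he2 : 0 < e ^ 2 := by positivity
  have hn0 : 0 < n := by omega
  have hq : 1 ≤ n / e ^ 2 := (Nat.one_le_div_iff he2).mpr h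
  have hq0 : (0 : ℝ) < ((n / e ^ 2 : ℕ) : ℝ) := by exact_mod_cast hq
  have e0 : (0 : ℝ) < e := by exact_mod_cast he
  have n0 : (0 : ℝ) < n := by exact_mod_cast hn0
  have e1 : Real.log n - 2 * Real.log e = Real.log ((n : ℝ) / (e : ℝ) ^ 2) := by
    rw [Real.log_div n0.ne' (by positivity), Real.log_pow]
    push_cast; ring
  rw [e1]
  have h1 : ((n / e ^ 2 : ℕ) : ℝ) ≤ (n : ℝ) / (e : ℝ) ^ 2 := by
    have := Nat.cast_div_le (α := ℝ) (m := n) (n := e ^ 2)
    push_cast at this; exact this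
  have h2 : (n : ℝ) / (e : ℝ) ^ 2 ≤ 2 * ((n / e ^ 2 : ℕ) : ℝ) := by
    rw [div_le_iff₀ (by positivity)]
    have a1 := Nat.div_add_mod n (e ^ 2)
    have a2 := Nat.mod_lt n he2
    have a3 : n ≤ 2 * (n / e ^ 2) * e ^ 2 := by
      have : e ^ 2 * 1 ≤ e ^ 2 * (n / e ^ 2) := Nat.mul_le_mul_left _ hq
      nlinarith
    exact_mod_cast a3
  have h3 := Real.log_le_log hq0 h1
  have h4 := Real.log_le_log (by positivity) h2
  rw [Real.log_mul two_ne_zero hq0.ne'] at h4
  have h5 : Real.log 2 ≤ 1 := by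
    have := Real.log_two_lt_d9; linarith
  rw [abs_le]
  constructor <;> linarith

/-- main asymptotic formula -/
theorem SS_asymp (W : ℕ) (hW : 0 < W) : ∃ C : ℝ, 0 ≤ C ∧ ∀ n : ℕ, 1 ≤ n →
    |SS W n - cS W * Real.log n| ≤ C := by
  set κ : ℝ := (W.totient : ℝ) / W with hκ
  have κ0 : 0 ≤ κ := by positivity
  have κ1 : κ ≤ 1 := by
    rw [hκ, div_le_one (by exact_mod_cast hW)]
    exact_mod_cast Nat.totient_le W
  have hsum : Summable (fun e : ℕ => (4 * W + 2 + 4 : ℝ) * ((e : ℝ) ^ (3 / 2 : ℝ))⁻¹) :=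
    (Real.summable_nat_rpow_inv.mpr (by norm_num)).mul_left _
  refine ⟨∑' e : ℕ, (4 * W + 2 + 4 : ℝ) * ((e : ℝ) ^ (3 / 2 : ℝ))⁻¹ + 2, ?_, ?_⟩
  · have : 0 ≤ ∑' e : ℕ, (4 * W + 2 + 4 : ℝ) * ((e : ℝ) ^ (3 / 2 : ℝ))⁻¹ :=
      tsum_nonneg fun e => by positivity
    linarith
  intro n hn
  set r := Nat.sqrt n with hr
  have hr1 : 1 ≤ r := by rw [hr]; exact Nat.sqrt_pos.mpr hn
  have hrn : r ≤ n := Nat.sqrt_le_self n
  -- restrict the sum
  have e1 : SS W n = ∑ e ∈ range (r + 1), cf W e * AA W (n / e ^ 2) := by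
    rw [SS_eq]
    have e2 : ∀ e ∈ Icc 1 n, (if e.Coprime W then
        (ArithmeticFunction.moebius e : ℝ) * (1 / (e : ℝ) ^ 2 * AA W (n / e ^ 2)) else 0) =
        cf W e * AA W (n / e ^ 2) := by
      intro e _
      unfold cf
      split_ifs
      · ring
      · ring
    rw [Finset.sum_congr rfl e2]
    have e3 : range (r + 1) = insert 0 (Icc 1 r) := by
      ext x; simp only [mem_range, mem_insert, mem_Icc]; omega
    rw [e3, Finset.sum_insert (by simp), cf_zero, zero_mul, zero_add]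
    symm
    apply Finset.sum_subset (Finset.Icc_subset_Icc_right hrn)
    intro e he he'
    rw [mem_Icc] at he he'
    have : n < e ^ 2 := by
      have h1 : r < e := by omega
      rw [hr, Nat.sqrt_lt'] at h1
      exact h1
    rw [Nat.div_eq_of_lt this]
    have : AA W 0 = 0 := by simp [AA]
    rw [this, mul_zero]
  -- decompose
  have e4 : SS W n - cS W * Real.log n =
      ∑ e ∈ range (r + 1), cf W e * (AA W (n / e ^ 2) - κ * (Real.log n - 2 * Real.log e)) +
      ∑ e ∈ range (r + 1), cf W e * (-(2 * κ * Real.log e)) +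
      κ * Real.log n * (∑ e ∈ range (r + 1), cf W e - ∑' e, cf W e) := by
    rw [e1, cS, ← hκ, mul_sub, Finset.mul_sum, ← Finset.sum_add_distrib, add_sub_assoc',
      ← Finset.sum_add_distrib]
    have : ∀ e ∈ range (r + 1), cf W e * (AA W (n / e ^ 2) - κ * (Real.log n - 2 * Real.log e)) +
        cf W e * (-(2 * κ * Real.log e)) + κ * Real.log n * cf W e = cf W e * AA W (n / e ^ 2) := by
      intro e _; ring
    rw [Finset.sum_congr rfl this]
    ring
  rw [e4]
  have hterm : ∀ e ∈ range (r + 1), |cf W e| * ((4 * W + 2) + 2 * Real.log e) ≤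
      (4 * W + 2 + 4 : ℝ) * ((e : ℝ) ^ (3 / 2 : ℝ))⁻¹ := by
    intro e _
    rcases Nat.eq_zero_or_pos e with rfl | he
    · rw [cf_zero]; simp
    have he0 : (0 : ℝ) < e := by exact_mod_cast he
    have he1 : (1 : ℝ) ≤ e := by exact_mod_cast he
    have hl : Real.log e ≤ 2 * (e : ℝ) ^ (1 / 2 : ℝ) := by
      have := Real.log_le_rpow_div he0.le (show (0 : ℝ) < 1 / 2 by norm_num)
      linarith
    have hp : (1 : ℝ) ≤ (e : ℝ) ^ (1 / 2 : ℝ) := Real.one_le_rpow he1 (by norm_num)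
    have hpw : ((e : ℝ) ^ 2)⁻¹ * (e : ℝ) ^ (1 / 2 : ℝ) = ((e : ℝ) ^ (3 / 2 : ℝ))⁻¹ := by
      rw [← Real.rpow_natCast, ← Real.rpow_neg he0.le, ← Real.rpow_add he0, ← Real.rpow_neg he0.le]
      norm_num
    have hlog0 : 0 ≤ Real.log e := Real.log_nonneg he1
    calc |cf W e| * ((4 * W + 2) + 2 * Real.log e)
        ≤ ((e : ℝ) ^ 2)⁻¹ * ((4 * W + 2) * (e : ℝ) ^ (1 / 2 : ℝ) + 4 * (e : ℝ) ^ (1 / 2 : ℝ)) := by
          apply mul_le_mul (abs_cf_le W e) _ (by positivity) (by positivity)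
          have : (4 * (W : ℝ) + 2) * 1 ≤ (4 * W + 2) * (e : ℝ) ^ (1 / 2 : ℝ) := by gcongr
          linarith
      _ = (4 * W + 2 + 4) * (((e : ℝ) ^ 2)⁻¹ * (e : ℝ) ^ (1 / 2 : ℝ)) := by ring
      _ = _ := by rw [hpw]
  have b1 : |∑ e ∈ range (r + 1), cf W e * (AA W (n / e ^ 2) - κ * (Real.log n - 2 * Real.log e)) +
      ∑ e ∈ range (r + 1), cf W e * (-(2 * κ * Real.log e))| ≤
      ∑' e : ℕ, (4 * W + 2 + 4 : ℝ) * ((e : ℝ) ^ (3 / 2 : ℝ))⁻¹ := by
    rw [← Finset.sum_add_distrib]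
    calc _ ≤ ∑ e ∈ range (r + 1), |cf W e * (AA W (n / e ^ 2) - κ * (Real.log n - 2 * Real.log e)) +
            cf W e * (-(2 * κ * Real.log e))| := Finset.abs_sum_le_sum_abs _ _
      _ ≤ ∑ e ∈ range (r + 1), |cf W e| * ((4 * W + 2) + 2 * Real.log e) := by
          apply Finset.sum_le_sum
          intro e he
          rcases Nat.eq_zero_or_pos e with rfl | hpos
          · rw [cf_zero]; simp
          rw [← mul_add, abs_mul]
          apply mul_le_mul_of_nonneg_left _ (abs_nonneg _)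
          have he1 : (1 : ℝ) ≤ e := by exact_mod_cast hpos
          have hlog0 : 0 ≤ Real.log e := Real.log_nonneg he1
          have her : e ^ 2 ≤ n := by
            rw [mem_range] at he
            have : e ≤ r := by omega
            rw [hr, Nat.le_sqrt'] at this
            exact this
          have hq : 1 ≤ n / e ^ 2 := (Nat.one_le_div_iff (by positivity)).mpr her
          have a1 := AA_asymp W hW (n / e ^ 2) hq
          have a2 := log_div_sq n e hpos her
          have a3 : AA W (n / e ^ 2) - κ * (Real.log n - 2 * Real.log e) =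
              (AA W (n / e ^ 2) - κ * Real.log ((n / e ^ 2 : ℕ) : ℝ)) +
                κ * (Real.log ((n / e ^ 2 : ℕ) : ℝ) - (Real.log n - 2 * Real.log e)) := by ring
          have a4 : |κ * (Real.log ((n / e ^ 2 : ℕ) : ℝ) - (Real.log n - 2 * Real.log e))| ≤ 1 := by
            rw [abs_mul, abs_of_nonneg κ0]
            calc _ ≤ 1 * 1 := mul_le_mul κ1 a2 (abs_nonneg _) zero_le_one
              _ = 1 := by ring
          have a5 : |AA W (n / e ^ 2) - κ * (Real.log n - 2 * Real.log e)| ≤ 4 * W + 2 := by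
            rw [a3]
            refine (abs_add_le _ _).trans ?_
            linarith
          have a6 : |(-(2 * κ * Real.log e))| ≤ 2 * Real.log e := by
            rw [abs_neg, abs_of_nonneg (by positivity)]
            nlinarith
          exact (abs_add_le _ _).trans (by linarith)
      _ ≤ ∑ e ∈ range (r + 1), (4 * W + 2 + 4 : ℝ) * ((e : ℝ) ^ (3 / 2 : ℝ))⁻¹ :=
          Finset.sum_le_sum hterm
      _ ≤ _ := hsum.sum_le_tsum _ (fun e _ => by positivity)
  have b2 : |κ * Real.log n * (∑ e ∈ range (r + 1), cf W e - ∑' e, cf W e)| ≤ 2 := by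
    have c1 := tail_cf W r hr1
    rw [abs_sub_comm] at c1
    have hn1 : (1 : ℝ) ≤ n := by exact_mod_cast hn
    have hlog0 : 0 ≤ Real.log n := Real.log_nonneg hn1
    have hr0 : (0 : ℝ) < r := by exact_mod_cast hr1
    have hlogr : Real.log n ≤ 2 * r := by
      have h1 : n < (r + 1) ^ 2 := by rw [hr]; exact Nat.lt_succ_sqrt' n
      have h2 : (n : ℝ) ≤ ((r : ℝ) + 1) ^ 2 := by exact_mod_cast h1.le
      have h3 := Real.log_le_log (by linarith) h2
      rw [Real.log_pow] at h3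
      have h4 := Real.log_le_sub_one_of_pos (show (0 : ℝ) < (r : ℝ) + 1 by positivity)
      push_cast at h3
      linarith
    rw [abs_mul, abs_mul, abs_of_nonneg κ0, abs_of_nonneg hlog0]
    calc κ * Real.log n * |∑ e ∈ range (r + 1), cf W e - ∑' e, cf W e|
        ≤ (1 * (2 * r)) * (1 / r) := by
          apply mul_le_mul _ c1 (abs_nonneg _) (by positivity)
          exact mul_le_mul κ1 hlogr hlog0 zero_le_one
      _ = 2 := by field_simp
  exact (abs_add_le _ _).trans (add_le_add b1 b2)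

/-- real argument -/
theorem SS_real (W : ℕ) (hW : 0 < W) : ∃ C : ℝ, 0 ≤ C ∧ ∀ z : ℝ, 1 ≤ z →
    |SS W ⌊z⌋₊ - cS W * Real.log z| ≤ C := by
  obtain ⟨C, hC, h⟩ := SS_asymp W hW
  refine ⟨C + |cS W|, by positivity, ?_⟩
  intro z hz
  have hf : 1 ≤ ⌊z⌋₊ := by rwa [Nat.one_le_floor_iff]
  have hf0 : (0 : ℝ) < (⌊z⌋₊ : ℝ) := by exact_mod_cast hf
  have h1 := h ⌊z⌋₊ hf
  have h2 : |Real.log (⌊z⌋₊ : ℝ) - Real.log z| ≤ 1 := by
    have a1 : (⌊z⌋₊ : ℝ) ≤ z := Nat.floor_le (by linarith)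
    have a2 : z ≤ 2 * (⌊z⌋₊ : ℝ) := by
      have := Nat.lt_floor_add_one z
      have : (1 : ℝ) ≤ (⌊z⌋₊ : ℝ) := by exact_mod_cast hf
      linarith
    have h3 := Real.log_le_log hf0 a1
    have h4 := Real.log_le_log (by linarith) a2
    rw [Real.log_mul two_ne_zero hf0.ne'] at h4
    have h5 : Real.log 2 ≤ 1 := by
      have := Real.log_two_lt_d9; linarith
    rw [abs_le]
    constructor <;> linarith
  have e1 : SS W ⌊z⌋₊ - cS W * Real.log z = (SS W ⌊z⌋₊ - cS W * Real.log (⌊z⌋₊ : ℝ)) +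
      cS W * (Real.log (⌊z⌋₊ : ℝ) - Real.log z) := by ring
  rw [e1]
  refine (abs_add_le _ _).trans (add_le_add h1 ?_)
  rw [abs_mul]
  calc _ ≤ |cS W| * 1 := by gcongr
    _ = _ := mul_one _

end Pool.Agent.Helper68.MT
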